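import Mathlib

/-!
Locally checkable labelling problems on unlabelled graphs, free actions of `ℤ^d`, and rigidity of
the balls of the grid.
-/

set_option autoImplicit false

noncomputable section

namespace Pool.Agent.X240.BB

open SimpleGraph

/-- A finite rooted graph with labels in `L`. -/
structure RLG (L : Type) where
  /-- number of vertices -/
  n : ℕ
  /-- the graph -/
  G : SimpleGraph (Fin n)
  /-- the root -/
  root : Fin n
  /-- the labels -/
  lab : Fin n → L

/-- The set of vertices at distance at most `r` from `v`. -/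
def bal {V : Type} (H : SimpleGraph V) (r : ℕ) (v : V) : Set V := {w | H.edist v w ≤ r}

theorem mem_bal_self {V : Type} (H : SimpleGraph V) (r : ℕ) (v : V) : v ∈ bal H r v := by
  simp [bal]

/-- A locally checkable labelling problem: a finite set of labels, a radius `r` and a set of finite
rooted labelled graphs of radius at most `r`. -/
structure LCL where
  /-- the labels -/
  Lab : Type
  /-- there are finitely many labels -/
  fin : Finite Lab
  /-- the radius -/
  r : ℕ
  /-- the allowed rooted labelled graphs -/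
  P : Set (RLG Lab)
  /-- they have radius at most `r` -/
  rad : ∀ p ∈ P, ∀ w, p.G.edist p.root w ≤ r

/-- `f` is a solution of the problem on the graph `H`: for every vertex `v` the ball of radius `r`
around `v`, labelled by `f` and rooted at `v`, is isomorphic to a member of `P`. -/
def LCL.IsSol (Q : LCL) {V : Type} (H : SimpleGraph V) (f : V → Q.Lab) : Prop :=
  ∀ v : V, ∃ p ∈ Q.P, ∃ e : H.induce (bal H Q.r v) ≃g p.G,
    e ⟨v, mem_bal_self H Q.r v⟩ = p.root ∧ ∀ w, p.lab (e w) = f w.1

/-! ### walks and balls -/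

theorem mem_bal {V : Type} {H : SimpleGraph V} {r : ℕ} {v w : V} :
    w ∈ bal H r v ↔ ∃ p : H.Walk v w, p.length ≤ r := by
  constructor
  · intro h
    have h' : H.edist v w ≤ r := h
    have hr : H.Reachable v w := by
      apply reachable_of_edist_ne_top
      intro hc
      rw [hc] at h'
      exact absurd h' (by simp)
    obtain ⟨p, hp⟩ := hr.exists_walk_length_eq_edist
    refine ⟨p, ?_⟩
    rw [← hp] at h'
    exact_mod_cast h'
  · rintro ⟨p, hp⟩
    exact (edist_le p).trans (by exact_mod_cast hp)

theorem length_induce {V : Type} {H : SimpleGraph V} {s : Set V} {u v : V} (p : H.Walk u v)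
    (hp : ∀ x ∈ p.support, x ∈ s) : (p.induce s hp).length = p.length := by
  have h := congrArg Walk.length (p.map_induce hp)
  rwa [Walk.length_map] at h

theorem bal_rad {V : Type} (H : SimpleGraph V) (r : ℕ) (v : V) (w : bal H r v) :
    (H.induce (bal H r v)).edist ⟨v, mem_bal_self H r v⟩ w ≤ r := by
  classical
  obtain ⟨w, hw⟩ := w
  obtain ⟨p, hp⟩ := mem_bal.1 hw
  have hs : ∀ x ∈ p.support, x ∈ bal H r v := fun x hx =>
    mem_bal.2 ⟨p.takeUntil x hx, (p.length_takeUntil_le_length hx).trans hp⟩
  refine (edist_le (p.induce _ hs)).trans ?_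
  rw [length_induce]
  exact_mod_cast hp

theorem edist_iso {V W : Type} {H : SimpleGraph V} {K : SimpleGraph W} (e : H ≃g K) {r : ℕ} {v w : V}
    (h : H.edist v w ≤ r) : K.edist (e v) (e w) ≤ r := by
  obtain ⟨p, hp⟩ := mem_bal.1 (show w ∈ bal H r v from h)
  refine (edist_le (p.map e.toHom)).trans ?_
  rw [Walk.length_map]
  exact_mod_cast hp

/-! ### the grid -/

/-- The unit vectors `e_i` and `-e_i`. -/
def un {d : ℕ} (a : Fin d × Bool) : Fin d → ℤ := if a.2 then Pi.single a.1 1 else -Pi.single a.1 1

/-- opposite direction -/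
def op {d : ℕ} (a : Fin d × Bool) : Fin d × Bool := (a.1, !a.2)

theorem un_op {d : ℕ} (a : Fin d × Bool) : un (op a) = -un a := by
  obtain ⟨i, s⟩ := a
  cases s <;> simp [un, op]

theorem un_apply {d : ℕ} (a : Fin d × Bool) (j : Fin d) :
    un a j = if j = a.1 then (if a.2 then 1 else -1) else 0 := by
  obtain ⟨i, s⟩ := a
  cases s
  · by_cases h : j = i <;> simp [un, h]
  · by_cases h : j = i <;> simp [un, h]

theorem un_inj {d : ℕ} {a b : Fin d × Bool} (h : un a = un b) : a = b := by
  obtain ⟨i, s⟩ := a
  obtain ⟨j, t⟩ := b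
  have h1 := congrFun h i
  simp only [un_apply, if_true] at h1
  by_cases hij : i = j
  · subst hij
    simp only [if_true] at h1
    cases s <;> cases t <;> simp_all
  · rw [if_neg hij] at h1
    cases s <;> simp at h1

theorem un_ne_zero {d : ℕ} (a : Fin d × Bool) : un a ≠ 0 := by
  intro h
  have h1 := congrFun h a.1
  simp only [un_apply, if_true, Pi.zero_apply] at h1
  (split_ifs at h1 <;> omega)

theorem op_ne {d : ℕ} (a : Fin d × Bool) : op a ≠ a := by
  obtain ⟨i, s⟩ := a
  cases s <;> simp [op]

theorem two_ne {d : ℕ} (a : Fin d × Bool) : un a + un a ≠ 0 := by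
  intro h
  have h1 := congrFun h a.1
  simp only [Pi.add_apply, un_apply, if_true, Pi.zero_apply] at h1
  split_ifs at h1 <;> omega

theorem sum_zero {d : ℕ} {a b : Fin d × Bool} (h : un a + un b = 0) : b = op a := by
  apply un_inj
  rw [un_op]
  exact (neg_eq_of_add_eq_zero_right h).symm

/-- two different unit vectors have at most two common neighbours -/
theorem com {d : ℕ} {a b p q : Fin d × Bool} (h : un a + un p = un b + un q) (hab : a ≠ b) :
    p = op a ∨ p = b := by
  by_cases h1 : p = op a
  · exact Or.inl h1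
  right
  -- evaluate at the coordinates
  obtain ⟨i, s⟩ := a
  obtain ⟨j, t⟩ := b
  obtain ⟨k, u⟩ := p
  obtain ⟨l, w⟩ := q
  have hi := congrFun h i
  have hj := congrFun h j
  have hk := congrFun h k
  have hl := congrFun h l
  simp only [Pi.add_apply, un_apply, if_true] at hi hj hk hl
  simp only [op, Prod.mk.injEq, ne_eq] at h1 hab ⊢
  by_cases e1 : i = j
  · subst e1
    have hst : s ≠ t := fun hc => hab ⟨rfl, hc⟩
    by_cases e2 : k = i
    · subst e2
      refine ⟨rfl, ?_⟩
      rw [if_pos rfl] at hi
      have hw : (if k = l then (if w = true then (1 : ℤ) else -1) else 0) ≤ 1 ∧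
          -1 ≤ (if k = l then (if w = true then (1 : ℤ) else -1) else 0) := by
        constructor <;> (split_ifs <;> omega)
      cases s <;> cases t <;> cases u <;> simp_all <;> omega
    · exfalso
      by_cases e3 : l = i
      · subst e3
        rw [if_neg e2, if_neg e2, if_neg e2] at hk
        cases u <;> simp at hk
      · rw [if_neg (Ne.symm e2), if_neg (Ne.symm e3)] at hi
        cases s <;> cases t <;> simp_all
  · rw [if_neg e1] at hi
    rw [if_neg (Ne.symm e1)] at hj
    by_cases e2 : k = i
    · subst e2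
      exfalso
      rw [if_neg (Ne.symm e1)] at hj
      by_cases e3 : l = j
      · subst e3
        rw [if_neg e1] at hi
        have hsu : ¬ (u = !s) := fun hc => h1 ⟨rfl, hc⟩
        cases s <;> cases u <;> simp at hi hsu
      · rw [if_neg (Ne.symm e3)] at hj
        cases t <;> simp at hj
    · rw [if_neg (Ne.symm e2)] at hi
      by_cases e3 : l = i
      · subst e3
        rw [if_neg (Ne.symm e1)] at hj
        by_cases e4 : k = j
        · subst e4
          refine ⟨rfl, ?_⟩
          cases t <;> cases u <;> simp_all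
        · exfalso
          rw [if_neg (Ne.symm e4)] at hj
          cases t <;> simp at hj
      · exfalso
        rw [if_neg (Ne.symm e3)] at hi
        cases s <;> simp at hi

/-- Rigidity of the ball of radius two. -/
theorem rigid {d : ℕ} (θ : (Fin d → ℤ) → (Fin d → ℤ)) (s : Fin d × Bool → Fin d × Bool)
    (t : Fin d × Bool → Fin d × Bool → Fin d × Bool)
    (h1 : ∀ a, θ (un a) = θ 0 + un (s a)) (h2 : ∀ a b, θ (un a + un b) = θ (un a) + un (t a b))
    (i1 : ∀ a b, θ (un a) = θ (un b) → un a = un b)
    (i0 : ∀ a b, θ (un a + un b) = θ 0 → un a + un b = 0)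
    (i2 : ∀ a b c, θ (un a + un b) = θ (un a + un c) → un a + un b = un a + un c) :
    (∀ a, s (op a) = op (s a)) ∧ ∀ a b, t a b = s b := by
  have sinj : Function.Injective s := by
    intro a b hab
    exact un_inj (i1 a b (by rw [h1, h1, hab]))
  have ssur : Function.Surjective s := Finite.surjective_of_injective sinj
  have hcom : ∀ a b, a ≠ b → t a b = op (s a) ∨ t a b = s b := by
    intro a b hab
    have e : θ (un a + un b) = θ (un b + un a) := by rw [add_comm]
    rw [h2, h2, h1, h1, add_assoc, add_assoc] at e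
    exact com (add_left_cancel e) (fun hc => hab (sinj hc))
  have hop : ∀ a b, t a b = op (s a) → b = op a := by
    intro a b hab
    apply sum_zero
    apply i0
    rw [h2, h1, hab, un_op, add_neg_cancel_right]
  have hs : ∀ a, s (op a) = op (s a) := by
    intro a
    obtain ⟨b, hb⟩ := ssur (op (s a))
    by_cases hba : b = op a
    · rw [← hba, hb]
    by_cases hba' : a = b
    · subst hba'
      exact absurd hb.symm (op_ne _)
    exfalso
    rcases hcom a b hba' with h | h
    · exact hba (hop a b h)
    · exact hba (hop a b (h.trans hb))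
  refine ⟨hs, fun a b => ?_⟩
  by_cases hba : b = op a
  · subst hba
    have e := h2 a (op a)
    rw [un_op, add_neg_cancel, h1] at e
    have e' : un (s a) + un (t a (op a)) = 0 := by
      have : θ 0 + 0 = θ 0 + (un (s a) + un (t a (op a))) := by rw [add_zero, ← add_assoc]; exact e
      exact (add_left_cancel this).symm
    rw [hs]
    exact sum_zero e'
  by_cases hba' : a = b
  · subst hba'
    obtain ⟨c, hc⟩ := ssur (t a a)
    by_cases hca : c = a
    · rw [← hc, hca]
    exfalso
    by_cases hca' : c = op a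
    · rw [hca', hs] at hc
      exact op_ne a (hop a a hc.symm).symm
    · have h3 : t a c = s c := by
        rcases hcom a c (Ne.symm hca) with h | h
        · exact absurd (hop a c h) hca'
        · exact h
      have h4 := i2 a c a (by rw [h2, h2, h3, hc])
      exact hca (un_inj (add_left_cancel h4))
  · rcases hcom a b hba' with h | h
    · exact absurd (hop a b h) hba
    · exact h

/-- The points of the grid which are reached from `0` by at most `n` steps. -/
def Rn (d : ℕ) : ℕ → Set (Fin d → ℤ)
  | 0 => {0}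
  | n + 1 => {h | ∃ g ∈ Rn d n, h = g ∨ ∃ a, h = g + un a}

theorem Rn_mono {d m n : ℕ} (h : m ≤ n) : Rn d m ⊆ Rn d n := by
  induction n, h using Nat.le_induction with
  | base => exact subset_rfl
  | succ n _ ih => exact fun g hg => ⟨g, ih hg, Or.inl rfl⟩

theorem Rn_add {d n : ℕ} {g : Fin d → ℤ} (hg : g ∈ Rn d n) (a : Fin d × Bool) :
    g + un a ∈ Rn d (n + 1) := ⟨g, hg, Or.inr ⟨a, rfl⟩⟩

theorem zero_Rn {d : ℕ} (n : ℕ) : (0 : Fin d → ℤ) ∈ Rn d n := Rn_mono (Nat.zero_le n) rfl

theorem Rn_nsmul {d n : ℕ} {g : Fin d → ℤ} (hg : g ∈ Rn d n) (a : Fin d × Bool) (m : ℕ) :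
    g + m • un a ∈ Rn d (n + m) := by
  induction m with
  | zero => simpa using hg
  | succ m ih =>
    have := Rn_add ih a
    rw [succ_nsmul, ← add_assoc g]
    exact this

theorem Rn_finite (d n : ℕ) : (Rn d n).Finite := by
  induction n with
  | zero => exact Set.finite_singleton _
  | succ n ih =>
    refine (ih.union (Set.Finite.image2 (fun g a => g + un a) ih
      (Set.finite_univ (α := Fin d × Bool)))).subset ?_
    rintro h ⟨g, hg, rfl | ⟨a, rfl⟩⟩
    · exact Or.inl hg
    · exact Or.inr ⟨g, hg, a, trivial, rfl⟩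

/-- Rigidity of larger balls: `ψ` is linear. -/
theorem rigid_all {d r : ℕ} (hr : 2 ≤ r) (ψ : (Fin d → ℤ) → (Fin d → ℤ)) (h0 : ψ 0 = 0)
    (hinj : ∀ g ∈ Rn d r, ∀ h ∈ Rn d r, ψ g = ψ h → g = h)
    (hadj : ∀ g a, g ∈ Rn d r → g + un a ∈ Rn d r → ∃ c, ψ (g + un a) = ψ g + un c) :
    ∃ s : Fin d × Bool → Fin d × Bool, Function.Bijective s ∧ (∀ a, s (op a) = op (s a)) ∧
      ∀ n, n + 2 ≤ r → ∀ g ∈ Rn d n, ∀ m, n + m + 1 ≤ r → ∀ b,
        ψ (g + m • un b) = ψ g + m • un (s b) := by
  have hex : ∀ a, ∃ c, ψ (un a) = un c := by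
    intro a
    obtain ⟨c, hc⟩ := hadj 0 a (zero_Rn r) (Rn_mono (by omega) (Rn_add (zero_Rn 0) a))
    rw [zero_add, h0, zero_add] at hc
    exact ⟨c, hc⟩
  choose s hs using hex
  -- local application of `rigid`
  have hloc : ∀ n, n + 2 ≤ r → ∀ g ∈ Rn d n, ∀ s' : Fin d × Bool → Fin d × Bool,
      (∀ a, ψ (g + un a) = ψ g + un (s' a)) → (∀ a, s' (op a) = op (s' a)) ∧
      ∀ a b, ψ (g + un a + un b) = ψ (g + un a) + un (s' b) := by
    intro n hn g hg s' hs'
    have hg1 : ∀ a, g + un a ∈ Rn d (n + 1) := fun a => Rn_add hg a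
    have hg2 : ∀ a b, g + un a + un b ∈ Rn d (n + 2) := fun a b => Rn_add (hg1 a) b
    have m0 : g ∈ Rn d r := Rn_mono (by omega) hg
    have m1 : ∀ a, g + un a ∈ Rn d r := fun a => Rn_mono (by omega) (hg1 a)
    have m2 : ∀ a b, g + un a + un b ∈ Rn d r := fun a b => Rn_mono hn (hg2 a b)
    choose t ht using fun a b => hadj (g + un a) b (m1 a) (m2 a b)
    have key := rigid (fun h => ψ (g + h)) s' t (fun a => by simpa using hs' a)
      (fun a b => by simpa [add_assoc] using ht a b)
      (fun a b hab => add_left_cancel (hinj _ (m1 a) _ (m1 b) hab))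
      (fun a b hab => by
        have h3 := hinj _ (m2 a b) _ m0 (by simpa [add_assoc] using hab)
        rw [add_assoc] at h3
        simpa using h3)
      (fun a b c hab => by
        have h3 := hinj _ (m2 a b) _ (m2 a c) (by simpa [add_assoc] using hab)
        rw [add_assoc, add_assoc] at h3
        exact add_left_cancel h3)
    refine ⟨key.1, fun a b => ?_⟩
    rw [ht, key.2]
  have hA : ∀ n, n + 2 ≤ r → ∀ g ∈ Rn d n, ∀ b, ψ (g + un b) = ψ g + un (s b) := by
    intro n
    induction n with
    | zero =>
      intro _ g hg b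
      have : g = 0 := hg
      subst this
      rw [zero_add, h0, zero_add, hs]
    | succ n ih =>
      rintro hn h ⟨g, hg, rfl | ⟨a, rfl⟩⟩ b
      · exact ih (by omega) _ hg b
      · exact (hloc n (by omega) g hg s (ih (by omega) g hg)).2 a b
  -- one more step on the boundary
  have hA' : ∀ n, n + 1 ≤ r → ∀ g ∈ Rn d n, ∀ b, ψ (g + un b) = ψ g + un (s b) := by
    intro n hn g hg b
    rcases Nat.eq_zero_or_pos n with rfl | hpos
    · exact hA 0 (by omega) g hg b
    obtain ⟨n, rfl⟩ := Nat.exists_eq_succ_of_ne_zero hpos.ne'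
    obtain ⟨g', hg', rfl | ⟨a, rfl⟩⟩ := hg
    · exact hA n (by omega) _ hg' b
    · exact (hloc n (by omega) g' hg' s (hA n (by omega) g' hg')).2 a b
  have hop := (hloc 0 (by omega) 0 rfl s (fun a => by rw [zero_add, h0, zero_add, hs])).1
  refine ⟨s, ?_, hop, ?_⟩
  · refine Finite.injective_iff_bijective.1 ?_
    intro a b hab
    have m1 : ∀ a : Fin d × Bool, un a ∈ Rn d r := fun a => by
      have := Rn_mono (n := r) (by omega) (Rn_add (zero_Rn (d := d) 0) a)
      rwa [zero_add] at this
    exact un_inj (hinj _ (m1 a) _ (m1 b) (by rw [hs, hs, hab]))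
  · intro n _ g hg m
    induction m with
    | zero => intro _ b; simp
    | succ m ih =>
      intro hm b
      have h3 := ih (by omega) b
      have h4 := hA' (n + m) (by omega) _ (Rn_nsmul hg b m) b
      rw [h3] at h4
      rw [succ_nsmul, succ_nsmul, ← add_assoc, ← add_assoc]
      exact h4

end Pool.Agent.X240.BB

end
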