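import Pool.Agent.X240.BB.Core
import Pool.Agent.W927.BM.Win

/-!
The encoding of a labelling problem of `ℤ²`-actions as a locally checkable labelling problem on the
unlabelled grid.
-/

set_option autoImplicit false

noncomputable section

namespace Pool.Agent.X240.BB

open SimpleGraph Pool.Agent.W927.BM

/-- The graph of an action of `ℤ^d`: the neighbours of `v` are the points `±e_i · v`. -/
structure IsAct {d : ℕ} {V : Type} (H : SimpleGraph V) (α : (Fin d → ℤ) → V → V) : Prop where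
  zero : ∀ v, α 0 v = v
  add : ∀ g h v, α (g + h) v = α g (α h v)
  free : ∀ g v, α g v = v → g = 0
  adj : ∀ v w, H.Adj v w ↔ ∃ a : Fin d × Bool, w = α (un a) v

/-- The standard Cayley graph of `ℤ^d`. -/
def cay (d : ℕ) : SimpleGraph (Fin d → ℤ) where
  Adj g h := ∃ a : Fin d × Bool, h = g + un a
  symm := ⟨by
    rintro g h ⟨a, rfl⟩
    exact ⟨op a, by rw [un_op, add_neg_cancel_right]⟩⟩
  loopless := ⟨by
    rintro g ⟨a, h⟩
    exact un_ne_zero a (by simpa using h.symm)⟩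

theorem cay_adj {d : ℕ} (g : Fin d → ℤ) (a : Fin d × Bool) : (cay d).Adj g (g + un a) := ⟨a, rfl⟩

section act

variable {d : ℕ} {V : Type} {H : SimpleGraph V} {α : (Fin d → ℤ) → V → V}

theorem IsAct.inj (A : IsAct H α) {g h : Fin d → ℤ} {v : V} (e : α g v = α h v) : g = h := by
  have h1 : α (-h + g) v = v := by
    rw [A.add, e, ← A.add, neg_add_cancel, A.zero]
  have h2 := A.free _ _ h1
  exact (neg_add_eq_zero.1 h2).symm

theorem IsAct.walk (A : IsAct H α) (v : V) {u w : V} (p : H.Walk u w) :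
    ∀ g0, u = α g0 v → ∃ g, w = α g v ∧ ∃ q : (cay d).Walk g0 g, q.length = p.length := by
  induction p with
  | nil => exact fun g0 h => ⟨g0, h, Walk.nil, rfl⟩
  | cons hh p ih =>
    intro g0 h
    obtain ⟨a, ha⟩ := (A.adj _ _).1 hh
    obtain ⟨g, hg, q, hq⟩ := ih (g0 + un a) (by rw [ha, h, ← A.add, add_comm])
    exact ⟨g, hg, Walk.cons (cay_adj g0 a) q, by rw [Walk.length_cons, Walk.length_cons, hq]⟩

theorem IsAct.adj_iff (A : IsAct H α) (v : V) (g h : Fin d → ℤ) :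
    H.Adj (α g v) (α h v) ↔ (cay d).Adj g h := by
  rw [A.adj]
  constructor
  · rintro ⟨a, ha⟩
    rw [← A.add] at ha
    exact ⟨a, by rw [add_comm]; exact A.inj ha⟩
  · rintro ⟨a, ha⟩
    exact ⟨a, by rw [← A.add, ha, add_comm]⟩

/-- the orbit map as a homomorphism -/
def IsAct.hom (A : IsAct H α) (v : V) : cay d →g H where
  toFun g := α g v
  map_rel' := fun {g h} e => (A.adj_iff v g h).2 e

theorem IsAct.mem_bal (A : IsAct H α) {r : ℕ} {v w : V} :
    w ∈ bal H r v ↔ ∃ g ∈ bal (cay d) r 0, w = α g v := by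
  rw [Pool.Agent.X240.BB.mem_bal]
  constructor
  · rintro ⟨p, hp⟩
    obtain ⟨g, hg, q, hq⟩ := A.walk v p 0 (A.zero v).symm
    exact ⟨g, Pool.Agent.X240.BB.mem_bal.2 ⟨q, by rw [hq]; exact hp⟩, hg⟩
  · rintro ⟨g, hg, rfl⟩
    obtain ⟨q, hq⟩ := Pool.Agent.X240.BB.mem_bal.1 hg
    have h : ∃ p : H.Walk (α 0 v) (α g v), p.length ≤ r :=
      ⟨q.map (A.hom v), (q.length_map (A.hom v)).le.trans hq⟩
    rwa [A.zero] at h

/-- the balls of the graph of a free action are balls of the grid -/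
theorem IsAct.balIso (A : IsAct H α) (r : ℕ) (v : V) :
    ∃ e : (cay d).induce (bal (cay d) r 0) ≃g H.induce (bal H r v), ∀ g, (e g).1 = α g.1 v := by
  let F : (bal (cay d) r 0) → (bal H r v) := fun g => ⟨α g.1 v, A.mem_bal.2 ⟨g.1, g.2, rfl⟩⟩
  have hF : Function.Bijective F := by
    constructor
    · intro g h e
      exact Subtype.ext (A.inj (congrArg Subtype.val e))
    · rintro ⟨w, hw⟩
      obtain ⟨g, hg, rfl⟩ := A.mem_bal.1 hw
      exact ⟨⟨g, hg⟩, rfl⟩
  exact ⟨⟨Equiv.ofBijective F hF, fun {g h} => A.adj_iff v g.1 h.1⟩, fun g => rfl⟩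

end act

theorem bal_eq_Rn (d r : ℕ) : bal (cay d) r 0 = Rn d r := by
  ext g
  rw [mem_bal]
  constructor
  · rintro ⟨p, hp⟩
    suffices ∀ {g0 g : Fin d → ℤ} (p : (cay d).Walk g0 g) (n : ℕ), g0 ∈ Rn d n →
        g ∈ Rn d (n + p.length) by
      have h1 := this p 0 rfl
      rw [zero_add] at h1
      exact Rn_mono hp h1
    intro g0 g p
    induction p with
    | nil => intro n h; exact h
    | cons hh p ih =>
      intro n h
      rw [Walk.length_cons]
      obtain ⟨a, rfl⟩ := hh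
      have := ih (n + 1) (Rn_add h a)
      rwa [show n + (p.length + 1) = n + 1 + p.length by ring]
  · intro hg
    induction r generalizing g with
    | zero =>
      have : g = 0 := hg
      subst this
      exact ⟨Walk.nil, le_rfl⟩
    | succ n ih =>
      obtain ⟨g', hg', rfl | ⟨a, rfl⟩⟩ := hg
      · obtain ⟨p, hp⟩ := ih _ hg'
        exact ⟨p, by omega⟩
      · obtain ⟨p, hp⟩ := ih _ hg'
        refine ⟨p.concat (cay_adj g' a), ?_⟩
        rw [Walk.length_concat]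
        omega

/-! ### the problem -/

/-- labels: a colour, a table of the colours of the neighbours, and a label of the `ℤ²`-problem -/
abbrev LL (d K : ℕ) : Type := Fin K × (Fin d × Bool → Fin K) × Lab

/-- Good labellings of `ℤ^d`. -/
structure Good {d K : ℕ} (i j : Fin d) (l : (Fin d → ℤ) → LL d K) : Prop where
  col : ∀ g a b, a ≠ b → (l (g + un a)).1 ≠ (l (g + un b)).1
  tab : ∀ g a, (l g).2.1 a = (l (g + un a)).1
  rule : ∀ t x, Rule (fun t' x' => (l (t' • un (i, true) + x' • un (j, true))).2.2) t x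

/-- The problem: a rooted labelled graph is allowed if it is isomorphic to the ball of radius `6`
of a good labelling of `ℤ^d`. -/
def QQ {d : ℕ} (K : ℕ) (i j : Fin d) : LCL where
  Lab := LL d K
  fin := inferInstance
  r := 6
  P := {p | ∃ l : (Fin d → ℤ) → LL d K, Good i j l ∧
    ∃ e : (cay d).induce (bal (cay d) 6 0) ≃g p.G,
      e ⟨0, mem_bal_self _ _ _⟩ = p.root ∧ ∀ w, p.lab (e w) = l w.1}
  rad := by
    rintro p ⟨l, -, e, he, -⟩ w
    rw [← he, ← e.apply_symm_apply w]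
    exact edist_iso e (bal_rad _ _ _ _)

/-- every finite rooted labelled graph has a copy on some `Fin n` -/
theorem exists_RLG {L W : Type} [Finite W] (G : SimpleGraph W) (v : W) (f : W → L) :
    ∃ p : RLG L, ∃ e : G ≃g p.G, e v = p.root ∧ ∀ w, p.lab (e w) = f w := by
  let φ := Finite.equivFin W
  refine ⟨⟨Nat.card W, G.map φ, φ v, fun k => f (φ.symm k)⟩, Iso.map φ G, rfl, fun w => ?_⟩
  show f (φ.symm (φ w)) = f w
  rw [Equiv.symm_apply_apply]

section enc

variable {d K : ℕ} {V : Type} {H : SimpleGraph V} {α : (Fin d → ℤ) → V → V} {i j : Fin d}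

theorem isSol_iff (f : V → LL d K) : (QQ K i j).IsSol H f ↔ ∀ v, ∃ p : RLG (LL d K),
    (∃ l : (Fin d → ℤ) → LL d K, Good i j l ∧
      ∃ e : (cay d).induce (bal (cay d) 6 0) ≃g p.G,
        e ⟨0, mem_bal_self _ _ _⟩ = p.root ∧ ∀ w, p.lab (e w) = l w.1) ∧
    ∃ e : H.induce (bal H 6 v) ≃g p.G,
      e ⟨v, mem_bal_self H 6 v⟩ = p.root ∧ ∀ w, p.lab (e w) = f w.1 := Iff.rfl

/-- Solutions from good labellings of the orbits. -/
theorem sol_of_good (A : IsAct H α) (f : V → LL d K) (hf : ∀ v, Good i j (fun g => f (α g v))) :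
    (QQ K i j).IsSol H f := by
  rw [isSol_iff]
  intro v
  obtain ⟨β, hβ⟩ := A.balIso 6 v
  have hfin : Finite (bal (cay d) 6 0) := by
    rw [bal_eq_Rn]
    exact (Rn_finite d 6).to_subtype
  obtain ⟨p, e, he, hl⟩ := exists_RLG ((cay d).induce (bal (cay d) 6 0)) ⟨0, mem_bal_self _ _ _⟩
    (fun w => f (α w.1 v))
  refine ⟨p, ⟨_, hf v, e, he, hl⟩, β.symm.trans e, ?_, ?_⟩
  · have h1 : β ⟨0, mem_bal_self _ _ _⟩ = ⟨v, mem_bal_self H 6 v⟩ :=
      Subtype.ext (by rw [hβ]; exact A.zero v)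
    have h2 : β.symm ⟨v, mem_bal_self H 6 v⟩ = ⟨0, mem_bal_self _ _ _⟩ := by
      rw [← h1, RelIso.symm_apply_apply]
    show e (β.symm ⟨v, mem_bal_self H 6 v⟩) = _
    rw [h2, he]
  · intro w
    show p.lab (e (β.symm w)) = f w.1
    rw [hl]
    show f (α (β.symm w).1 v) = f w.1
    rw [← hβ, RelIso.apply_symm_apply]

/-- What a solution looks like around a point. -/
theorem good_of_sol (A : IsAct H α) (f : V → LL d K) (hf : (QQ K i j).IsSol H f) (v : V) :
    ∃ l : (Fin d → ℤ) → LL d K, Good i j l ∧ ∃ ψ : (Fin d → ℤ) → (Fin d → ℤ), ψ 0 = 0 ∧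
      (∀ g ∈ Rn d 6, ∀ h ∈ Rn d 6, ψ g = ψ h → g = h) ∧
      (∀ g a, g ∈ Rn d 6 → g + un a ∈ Rn d 6 → ∃ c, ψ (g + un a) = ψ g + un c) ∧
      ∀ g ∈ Rn d 6, f (α (ψ g) v) = l g := by
  classical
  obtain ⟨p, ⟨l, hl, e, he, hel⟩, e', he', hel'⟩ := (isSol_iff f).1 hf v
  obtain ⟨β, hβ⟩ := A.balIso 6 v
  let Ψ : (cay d).induce (bal (cay d) 6 0) ≃g (cay d).induce (bal (cay d) 6 0) :=
    e.trans (e'.symm.trans β.symm)
  have hΨ0 : Ψ ⟨0, mem_bal_self _ _ _⟩ = ⟨0, mem_bal_self _ _ _⟩ := by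
    show β.symm (e'.symm (e ⟨0, mem_bal_self _ _ _⟩)) = _
    rw [he, ← he', RelIso.symm_apply_apply]
    have h1 : β ⟨0, mem_bal_self _ _ _⟩ = ⟨v, mem_bal_self H 6 v⟩ :=
      Subtype.ext (by rw [hβ]; exact A.zero v)
    exact (RelIso.symm_apply_eq β).2 h1.symm
  have hΨf : ∀ w, f (α (Ψ w).1 v) = l w.1 := by
    intro w
    rw [← hβ]
    show f (β (β.symm (e'.symm (e w)))).1 = l w.1
    rw [RelIso.apply_symm_apply, ← hel', RelIso.apply_symm_apply, hel]
  refine ⟨l, hl, fun g => if h : g ∈ bal (cay d) 6 0 then (Ψ ⟨g, h⟩).1 else 0, ?_, ?_, ?_, ?_⟩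
  · beta_reduce
    rw [dif_pos (mem_bal_self _ _ _), hΨ0]
  · intro g hg h hh e
    rw [← bal_eq_Rn] at hg hh
    beta_reduce at e
    rw [dif_pos hg, dif_pos hh] at e
    have := Ψ.injective (Subtype.ext e)
    exact congrArg Subtype.val this
  · intro g a hg hga
    rw [← bal_eq_Rn] at hg hga
    beta_reduce
    rw [dif_pos hg, dif_pos hga]
    have h1 : ((cay d).induce (bal (cay d) 6 0)).Adj ⟨g, hg⟩ ⟨g + un a, hga⟩ := ⟨a, rfl⟩
    have h2 := Ψ.map_rel_iff.2 h1
    obtain ⟨c, hc⟩ := h2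
    exact ⟨c, hc⟩
  · intro g hg
    rw [← bal_eq_Rn] at hg
    beta_reduce
    rw [dif_pos hg]
    exact hΨf ⟨g, hg⟩

/-- The nominal directions `i`, `j` are `a`, `b` at `v`. -/
def Dir (f : V → LL d K) (α : (Fin d → ℤ) → V → V) (i j : Fin d) (a b : Fin d × Bool) (v : V) :
    Prop :=
  (f v).2.1 (i, true) = (f (α (un a) v)).1 ∧ (f v).2.1 (j, true) = (f (α (un b) v)).1

theorem dir_of_sol (A : IsAct H α) (f : V → LL d K) (hf : (QQ K i j).IsSol H f) (v : V) :
    (∃ a b, Dir f α i j a b v) ∧ ∀ a b, Dir f α i j a b v →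
      (∀ c, Dir f α i j a b (α (un c) v)) ∧
      Rule (fun t x => (f (α (t • un a + x • un b) v)).2.2) 0 0 := by
  obtain ⟨l, hl, ψ, h0, hinj, hadj, hfl⟩ := good_of_sol A f hf v
  obtain ⟨s, hs, hop, hψ⟩ := rigid_all (by norm_num) ψ h0 hinj hadj
  have hu : ∀ a, ψ (un a) = un (s a) := by
    intro a
    have := hψ 0 (by norm_num) 0 rfl 1 (by norm_num) a
    simpa [h0] using this
  have m0 : (0 : Fin d → ℤ) ∈ Rn d 6 := zero_Rn 6
  have m1 : ∀ a : Fin d × Bool, un a ∈ Rn d 1 := fun a => by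
    have := Rn_add (zero_Rn (d := d) 0) a
    rwa [zero_add (un a)] at this
  have m1' : ∀ a : Fin d × Bool, un a ∈ Rn d 6 := fun a => Rn_mono (by norm_num) (m1 a)
  have m2 : ∀ a b : Fin d × Bool, un a + un b ∈ Rn d 6 := fun a b =>
    Rn_mono (by norm_num) (Rn_add (m1 a) b)
  have f0 : f v = l 0 := by
    have := hfl 0 m0
    rwa [h0, A.zero] at this
  have f1 : ∀ a, f (α (un (s a)) v) = l (un a) := by
    intro a
    have := hfl (un a) (m1' a)
    rwa [hu] at this
  have hcol : ∀ a b, a ≠ b → (f (α (un a) v)).1 ≠ (f (α (un b) v)).1 := by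
    intro a b hab
    obtain ⟨a', rfl⟩ := hs.2 a
    obtain ⟨b', rfl⟩ := hs.2 b
    rw [f1, f1]
    have := hl.col 0 a' b' (fun hc => hab (by rw [hc]))
    rwa [zero_add, zero_add] at this
  have htab : ∀ a, (f v).2.1 a = (f (α (un (s a)) v)).1 := by
    intro a
    rw [f0, f1, hl.tab, zero_add]
  refine ⟨⟨s (i, true), s (j, true), htab _, htab _⟩, ?_⟩
  rintro a b ⟨ha, hb⟩
  have ea : a = s (i, true) := by
    by_contra hc
    exact hcol _ _ hc (by rw [← ha, htab])
  have eb : b = s (j, true) := by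
    by_contra hc
    exact hcol _ _ hc (by rw [← hb, htab])
  subst ea
  subst eb
  refine ⟨fun c => ?_, ?_⟩
  · obtain ⟨c', rfl⟩ := hs.2 c
    have key : ∀ a, (f (α (un (s c')) v)).2.1 a = (f (α (un (s a)) (α (un (s c')) v))).1 := by
      intro a
      rw [f1, hl.tab, ← A.add, add_comm (un (s a))]
      have h1 := hψ 1 (by norm_num) (un c') (m1 c') 1 (by norm_num) a
      rw [one_smul, one_smul, hu] at h1
      rw [← h1, hfl _ (m2 c' a)]
    exact ⟨key _, key _⟩
  · refine Rule_congr (t := 0) (x := 0) (t' := 0) (x' := 0) ?_ (hl.rule 0 0)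
    intro t x ht hx
    simp only [zero_add]
    have hz : ∀ (k : Fin d) (z : ℤ), |z| ≤ 2 → ∀ n, n ≤ 2 → ∀ g ∈ Rn d n,
        g + z • un (k, true) ∈ Rn d (n + 2) ∧
        ψ (g + z • un (k, true)) = ψ g + z • un (s (k, true)) := by
      intro k z hz n hn g hg
      rw [abs_le] at hz
      rcases le_total 0 z with h | h
      · obtain ⟨m, rfl⟩ := Int.eq_ofNat_of_zero_le h
        have hm : m ≤ 2 := by omega
        rw [natCast_zsmul, natCast_zsmul]
        exact ⟨Rn_mono (by omega) (Rn_nsmul hg _ m), hψ n (by omega) g hg m (by omega) _⟩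
      · obtain ⟨m, hm'⟩ := Int.eq_ofNat_of_zero_le (neg_nonneg.2 h)
        have hm : m ≤ 2 := by omega
        have e1 : z • un (k, true) = m • un (op (k, true)) := by
          rw [un_op, ← natCast_zsmul, show ((m : ℕ) : ℤ) = -z from hm'.symm]
          simp
        have e2 : z • un (s (k, true)) = m • un (s (op (k, true))) := by
          rw [hop, un_op, ← natCast_zsmul, show ((m : ℕ) : ℤ) = -z from hm'.symm]
          simp
        rw [e1, e2]
        exact ⟨Rn_mono (by omega) (Rn_nsmul hg _ m), hψ n (by omega) g hg m (by omega) _⟩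
    obtain ⟨q1, q2⟩ := hz i t ht 0 (by norm_num) 0 rfl
    obtain ⟨q3, q4⟩ := hz j x hx (0 + 2) (by norm_num) _ q1
    rw [q2, h0, zero_add, zero_add] at q4
    rw [zero_add (t • un (i, true))] at q3
    rw [← q4, hfl _ (Rn_mono (by norm_num) q3)]

end enc

end Pool.Agent.X240.BB

end
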