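import Pool.Agent.X240.BB.Shift

/-!
Borel colourings, the solution on a comeagre set, and the theorem.
-/

set_option autoImplicit false

noncomputable section

namespace Pool.Agent.X240.BB

open SimpleGraph Pool.Agent.W927.BM MeasureTheory TopologicalSpace

/-! ### Polish -/

theorem cont_shf {d : ℕ} (g : Fin d → ℤ) : Continuous (shf g) :=
  continuous_pi fun h => continuous_apply (h + g)

theorem cont_act {d : ℕ} (g : Fin d → ℤ) : Continuous (act g) :=
  Continuous.subtype_mk ((cont_shf g).comp continuous_subtype_val) _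

/-- a countable intersection of open sets of a Polish space is Polish -/
theorem polish_iInter {X ι : Type} [TopologicalSpace X] [PolishSpace X] [Countable ι]
    (O : ι → Set X) (hO : ∀ i, IsOpen (O i)) : PolishSpace (⋂ i, O i : Set X) := by
  have h1 : ∀ i, PolishSpace (O i) := fun i => (hO i).polishSpace
  let F : (⋂ i, O i : Set X) → X × (∀ i, O i) :=
    fun x => (x.1, fun i => ⟨x.1, Set.mem_iInter.1 x.2 i⟩)
  have hF : Continuous F :=
    continuous_subtype_val.prodMk (continuous_pi fun i => Continuous.subtype_mk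
      continuous_subtype_val _)
  have hemb : Topology.IsEmbedding F :=
    Topology.IsEmbedding.of_comp hF continuous_fst Topology.IsEmbedding.subtypeVal
  have hcl : IsClosed (Set.range F) := by
    have : Set.range F = ⋂ i, {p : X × (∀ i, O i) | (p.2 i).1 = p.1} := by
      ext p
      simp only [Set.mem_iInter, Set.mem_range, Set.mem_ofPred_eq]
      constructor
      · rintro ⟨x, rfl⟩ i
        rfl
      · intro h
        refine ⟨⟨p.1, Set.mem_iInter.2 fun i => by rw [← h i]; exact (p.2 i).2⟩, ?_⟩
        refine Prod.ext rfl (funext fun i => Subtype.ext ?_)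
        exact (h i).symm
    rw [this]
    refine isClosed_iInter fun i => isClosed_eq ?_ continuous_fst
    exact continuous_subtype_val.comp ((continuous_apply i).comp continuous_snd)
  exact (Topology.IsClosedEmbedding.mk hemb hcl).polishSpace

theorem polish_conf (d : ℕ) : PolishSpace ((Fin d → ℤ) → Bool) := by
  have h1 : SecondCountableTopology ((Fin d → ℤ) → Bool) := inferInstance
  have h2 : IsCompletelyMetrizableSpace ((Fin d → ℤ) → Bool) := inferInstance
  constructor

theorem polish_free (d : ℕ) : PolishSpace (FreePart d) := by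
  have hp := polish_conf d
  have : FreePart d = ⋂ g : {g : Fin d → ℤ // g ≠ 0}, {x | shf g.1 x = x}ᶜ := by
    ext x
    simp only [FreePart, Set.mem_iInter, Set.mem_ofPred_eq, Set.mem_compl_iff, Subtype.forall]
  rw [this]
  exact polish_iInter _ fun g => (isClosed_eq (cont_shf g.1) continuous_id).isOpen_compl

/-! ### Borel colourings -/

/-- a colour which is not used -/
theorem exists_pick {ι : Type} [Fintype ι] (p : ι → Option (Fin (Fintype.card ι + 1))) :
    ∃ k, ∀ i, p i ≠ some k := by
  classical
  by_contra hc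
  push Not at hc
  choose g hg using hc
  have hinj : Function.Injective g := by
    intro a b hab
    have := (hg a).symm.trans (hab ▸ hg b)
    exact Option.some_injective _ this
  have := Fintype.card_le_of_injective g hinj
  rw [Fintype.card_fin] at this
  omega

/-- the chosen unused colour -/
def pick {ι : Type} [Fintype ι] (p : ι → Option (Fin (Fintype.card ι + 1))) :
    Fin (Fintype.card ι + 1) := (exists_pick p).choose

theorem pick_spec {ι : Type} [Fintype ι] (p : ι → Option (Fin (Fintype.card ι + 1))) (i : ι) :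
    p i ≠ some (pick p) := (exists_pick p).choose_spec i

section greedy

variable {X ι : Type} [Fintype ι] (s : ι → X → X) (U : ℕ → Set X)

open Classical in
/-- the greedy colouring -/
def gre : ℕ → X → Option (Fin (Fintype.card ι + 1))
  | 0 => fun _ => none
  | n + 1 => fun y => if y ∈ U n ∧ gre n y = none then some (pick fun i => gre n (s i y))
      else gre n y

theorem gre_mono {n : ℕ} {y : X} {k} (h : gre s U n y = some k) {m : ℕ} (hm : n ≤ m) :
    gre s U m y = some k := by
  induction m, hm using Nat.le_induction with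
  | base => exact h
  | succ m _ ih =>
    simp only [gre]
    rw [if_neg (fun hc => by rw [ih] at hc; exact absurd hc.2 (by simp))]
    exact ih

theorem gre_some {n : ℕ} {y : X} (h : y ∈ U n) : ∃ k, gre s U (n + 1) y = some k := by
  simp only [gre]
  by_cases hc : gre s U n y = none
  · rw [if_pos ⟨h, hc⟩]
    exact ⟨_, rfl⟩
  · rw [if_neg (fun h' => hc h'.2)]
    exact Option.ne_none_iff_exists'.1 hc

theorem gre_prop (hs : ∀ i, ∃ j, ∀ y, s j (s i y) = y) (hU : ∀ n, ∀ y ∈ U n, ∀ i, s i y ∉ U n)
    (n : ℕ) : ∀ y i k, gre s U n y = some k → gre s U n (s i y) ≠ some k := by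
  induction n with
  | zero => intro y i k h; simp [gre] at h
  | succ n ih =>
    intro y i k h1 h2
    simp only [gre] at h1 h2
    by_cases c1 : y ∈ U n ∧ gre s U n y = none
    · by_cases c2 : s i y ∈ U n ∧ gre s U n (s i y) = none
      · exact hU n y c1.1 i c2.1
      · rw [if_pos c1] at h1
        rw [if_neg c2] at h2
        have h3 : pick (fun i => gre s U n (s i y)) = k := by simpa using h1
        exact pick_spec (fun i => gre s U n (s i y)) i (by rw [h3]; exact h2)
    · rw [if_neg c1] at h1
      by_cases c2 : s i y ∈ U n ∧ gre s U n (s i y) = none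
      · rw [if_pos c2] at h2
        have h3 : pick (fun j => gre s U n (s j (s i y))) = k := by simpa using h2
        obtain ⟨j, hj⟩ := hs i
        exact pick_spec (fun j => gre s U n (s j (s i y))) j (by rw [h3, hj]; exact h1)
      · rw [if_neg c2] at h2
        exact ih y i k h1 h2

theorem gre_meas [MeasurableSpace X] (hs : ∀ i, Measurable (s i)) (hU : ∀ n, MeasurableSet (U n))
    (n : ℕ) : ∀ o, MeasurableSet {y | gre s U n y = o} := by
  classical
  let _ : MeasurableSpace (Option (Fin (Fintype.card ι + 1))) := ⊤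
  have _ : DiscreteMeasurableSpace (Option (Fin (Fintype.card ι + 1))) := ⟨fun _ => trivial⟩
  have key : Measurable (gre s U n) := by
    induction n with
    | zero => exact measurable_const
    | succ n ih =>
      have h1 : MeasurableSet {y | y ∈ U n ∧ gre s U n y = none} :=
        (hU n).inter (ih (measurableSet_singleton none))
      have h2 : Measurable fun y => (fun i => gre s U n (s i y)) :=
        measurable_pi_lambda _ fun i => ih.comp (hs i)
      have h3 : Measurable fun y => (some (pick fun i => gre s U n (s i y)) :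
          Option (Fin (Fintype.card ι + 1))) :=
        (measurable_of_countable (fun p : ι → Option (Fin (Fintype.card ι + 1)) =>
          (some (pick p) : Option (Fin (Fintype.card ι + 1))))).comp h2
      exact Measurable.ite h1 h3 ih
  exact fun o => key (measurableSet_singleton o)

/-- Borel colourings from countable colourings. -/
theorem exists_col [MeasurableSpace X] (hs : ∀ i, ∃ j, ∀ y, s j (s i y) = y)
    (hsm : ∀ i, Measurable (s i)) (hUm : ∀ n, MeasurableSet (U n))
    (hU : ∀ n, ∀ y ∈ U n, ∀ i, s i y ∉ U n) (hcov : ∀ y, ∃ n, y ∈ U n) :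
    ∃ c : X → Fin (Fintype.card ι + 1), (∀ k, MeasurableSet (c ⁻¹' {k})) ∧
      ∀ y i, c (s i y) ≠ c y := by
  have h1 : ∀ y, ∃ k, ∃ n, gre s U n y = some k := by
    intro y
    obtain ⟨n, hn⟩ := hcov y
    obtain ⟨k, hk⟩ := gre_some s U hn
    exact ⟨k, n + 1, hk⟩
  choose c hc using h1
  have huniq : ∀ y k n, gre s U n y = some k → c y = k := by
    intro y k n h
    obtain ⟨m, hm⟩ := hc y
    have h1 := gre_mono s U h (le_max_left n m)
    have h2 := gre_mono s U hm (le_max_right n m)
    rw [h1] at h2
    exact (Option.some_injective _ h2).symm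
  refine ⟨c, fun k => ?_, fun y i h => ?_⟩
  · have : c ⁻¹' {k} = ⋃ n, {y | gre s U n y = some k} := by
      ext y
      simp only [Set.mem_preimage, Set.mem_singleton_iff, Set.mem_iUnion, Set.mem_ofPred_eq]
      constructor
      · intro h
        obtain ⟨m, hm⟩ := hc y
        exact ⟨m, by rw [hm, h]⟩
      · rintro ⟨n, hn⟩
        exact huniq y k n hn
    rw [this]
    exact MeasurableSet.iUnion fun n => gre_meas s U hsm hUm n _
  · obtain ⟨n, hn⟩ := hc y
    obtain ⟨m, hm⟩ := hc (s i y)
    have h1 := gre_mono s U hn (le_max_left n m)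
    have h2 := gre_mono s U hm (le_max_right n m)
    refine gre_prop s U hs hU (max n m) y i (c y) h1 ?_
    rw [h2, h]

end greedy

/-- Borel colourings of free continuous actions of finitely many maps. -/
theorem exists_col' {X ι : Type} [Fintype ι] [TopologicalSpace X] [T1Space X]
    [SecondCountableTopology X] [MeasurableSpace X] [BorelSpace X] (s : ι → X → X)
    (hs : ∀ i, ∃ j, ∀ y, s j (s i y) = y) (hsm : ∀ i, Measurable (s i))
    (hfree : ∀ i y, s i y ≠ y) :
    ∃ c : X → Fin (Fintype.card ι + 1), (∀ k, MeasurableSet (c ⁻¹' {k})) ∧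
      ∀ y i, c (s i y) ≠ c y := by
  classical
  obtain ⟨B, hBc, -, hB⟩ := exists_countable_basis X
  -- an enumeration of the basis with the empty set
  have hne : (insert ∅ B).Nonempty := ⟨∅, Or.inl rfl⟩
  obtain ⟨W, hW⟩ := (hBc.insert ∅).exists_eq_range hne
  have hWo : ∀ n, IsOpen (W n) := by
    intro n
    have : W n ∈ insert ∅ B := hW ▸ Set.mem_range_self n
    rcases this with h | h
    · rw [h]; exact isOpen_empty
    · exact hB.isOpen h
  refine exists_col s (fun n => W n ∩ ⋂ i, (s i ⁻¹' (W n))ᶜ) hs hsm (fun n => ?_) ?_ ?_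
  · exact (hWo n).measurableSet.inter (MeasurableSet.iInter fun i =>
      (hsm i (hWo n).measurableSet).compl)
  · rintro n y ⟨-, hy⟩ i ⟨hi, -⟩
    exact (Set.mem_iInter.1 hy i) hi
  · intro y
    have hfin : (Set.range fun i => s i y).Finite := Set.finite_range _
    have hopen : IsOpen (Set.range fun i => s i y)ᶜ := hfin.isClosed.isOpen_compl
    have hy : y ∈ (Set.range fun i => s i y)ᶜ := by
      rintro ⟨i, hi⟩
      exact hfree i y hi
    obtain ⟨V, hV, hyV, hVs⟩ := hB.exists_subset_of_mem_open hy hopen
    have : V ∈ insert ∅ B := Or.inr hV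
    rw [hW] at this
    obtain ⟨n, rfl⟩ := this
    refine ⟨n, hyV, Set.mem_iInter.2 fun i hi => hVs hi ⟨i, rfl⟩⟩

/-- a Borel colouring of the shift graph with different colours on the neighbours of any point -/
theorem exists_colour (d : ℕ) : ∃ (K : ℕ) (c : FreePart d → Fin K),
    (∀ k, MeasurableSet (c ⁻¹' {k})) ∧
    ∀ y a b, a ≠ b → c (act (un a) y) ≠ c (act (un b) y) := by
  classical
  let ι := {p : (Fin d × Bool) × (Fin d × Bool) // p.1 ≠ p.2}
  obtain ⟨c, hc, hcc⟩ := exists_col' (X := FreePart d) (ι := ι)
    (fun p => act (un p.1.1 - un p.1.2))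
    (fun p => ⟨⟨(p.1.2, p.1.1), fun h => p.2 h.symm⟩, fun y => by
      rw [← act_add, show un p.1.2 - un p.1.1 + (un p.1.1 - un p.1.2) = 0 by abel, act_zero]⟩)
    (fun p => meas_act _)
    (fun p y h => p.2 (un_inj (sub_eq_zero.1 (act_free _ _ h))))
  refine ⟨_, c, hc, fun y a b hab h => ?_⟩
  have := hcc (act (un b) y) ⟨(a, b), hab⟩
  rw [← act_add, sub_add_cancel] at this
  exact this h

theorem exists_res {d : ℕ} {i j : Fin d} (hij : i ≠ j) {K : ℕ} (c : FreePart d → Fin K)
    (hc : ∀ k, MeasurableSet (c ⁻¹' {k}))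
    (hcc : ∀ y a b, a ≠ b → c (act (un a) y) ≠ c (act (un b) y)) :
    ∃ G : Set (FreePart d), MeasurableSet G ∧ (∀ g, ∀ x ∈ G, act g x ∈ G) ∧
      G ∈ residual (FreePart d) ∧
      ∃ f : G → LL d K, (∀ l, MeasurableSet (f ⁻¹' {l})) ∧
        (QQ K i j).IsSol ((shiftGraph d).induce G) f := by
  have hP : PolishSpace (FreePart d) := polish_free d
  set T : ℤ → ℤ → FreePart d → FreePart d := fun t x => act (t • un (i, true) + x • un (j, true))
    with hT
  have Tadd : ∀ s t x z y, T (s + t) (x + z) y = T s x (T t z y) := by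
    intro s t x z y
    simp only [hT]
    rw [← act_add]
    congr 1
    rw [add_smul, add_smul]
    abel
  obtain ⟨f, G, hf, hG, -, hGres, hGR⟩ := pos (FreePart d) T
    (fun y => by simp only [hT, zero_smul, add_zero, act_zero]) Tadd (fun t x => meas_act _)
    (fun t x y h => by
      have h1 := act_free _ _ h
      have hi := congrFun h1 i
      have hj := congrFun h1 j
      simp only [Pi.add_apply, Pi.smul_apply, un_apply, if_true, smul_eq_mul, Pi.zero_apply,
        if_neg hij, if_neg hij.symm] at hi hj
      omega)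
  let _ : MeasurableSpace Lab := ⊤
  have _ : DiscreteMeasurableSpace Lab := ⟨fun _ => trivial⟩
  refine ⟨⋂ g : Fin d → ℤ, act g ⁻¹' G, MeasurableSet.iInter fun g => meas_act g hG, ?_, ?_, ?_⟩
  · intro g x hx
    refine Set.mem_iInter.2 fun h => ?_
    show act h (act g x) ∈ G
    rw [← act_add]
    exact Set.mem_iInter.1 hx _
  · rw [countable_iInter_mem]
    intro g
    let φ : FreePart d ≃ₜ FreePart d :=
      { toFun := act g
        invFun := act (-g)
        left_inv := fun y => by rw [← act_add, neg_add_cancel, act_zero]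
        right_inv := fun y => by rw [← act_add, add_neg_cancel, act_zero]
        continuous_toFun := cont_act g
        continuous_invFun := cont_act (-g) }
    have h1 : Filter.Tendsto φ (residual (FreePart d)) (residual (FreePart d)) :=
      tendsto_residual_of_isOpenMap φ.continuous φ.isOpenMap
    exact h1 hGres
  · have hinv : ∀ g, ∀ x ∈ (⋂ g : Fin d → ℤ, act g ⁻¹' G), act g x ∈ ⋂ g : Fin d → ℤ, act g ⁻¹' G := by
      intro g x hx
      refine Set.mem_iInter.2 fun h => ?_
      show act h (act g x) ∈ G
      rw [← act_add]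
      exact Set.mem_iInter.1 hx _
    have hfm : Measurable f := measurable_to_countable' hf
    have hcm : Measurable c := measurable_to_countable' hc
    let F : FreePart d → LL d K := fun v => (c v, fun a => c (act (un a) v), f v)
    have hF : Measurable F := hcm.prodMk
      ((measurable_pi_lambda _ fun a => hcm.comp (meas_act _)).prodMk hfm)
    refine ⟨fun v => F v.1, fun l => (hF.comp measurable_subtype_coe) (measurableSet_singleton l), ?_⟩
    refine sol_of_good (isActG hinv) _ fun v => ⟨?_, ?_, ?_⟩
    · intro g a b hab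
      show c (act (g + un a) v.1) ≠ c (act (g + un b) v.1)
      rw [add_comm g, add_comm g, act_add, act_add]
      exact hcc _ _ _ hab
    · intro g a
      show c (act (un a) (act g v.1)) = c (act (g + un a) v.1)
      rw [← act_add, add_comm]
    · intro t x
      have hv : v.1 ∈ G := by
        have := Set.mem_iInter.1 v.2 0
        rwa [Set.mem_preimage, act_zero] at this
      exact hGR v.1 hv t x

/-- The theorem. -/
theorem main (d : ℕ) (hd : 2 ≤ d) : ∃ Q : LCL,
    (∃ G : Set (FreePart d), MeasurableSet G ∧ (∀ g, ∀ x ∈ G, act g x ∈ G) ∧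
      G ∈ residual (FreePart d) ∧
      ∃ f : G → Q.Lab, (∀ l, MeasurableSet (f ⁻¹' {l})) ∧
        Q.IsSol ((shiftGraph d).induce G) f) ∧
    (¬ ∃ f : FreePart d → Q.Lab, (∀ l, MeasurableSet (f ⁻¹' {l})) ∧ Q.IsSol (shiftGraph d) f) ∧
    ∃ μ : Measure (FreePart d), IsProbabilityMeasure μ ∧
      ¬ ∃ G : Set (FreePart d), MeasurableSet G ∧ (∀ g, ∀ x ∈ G, act g x ∈ G) ∧ μ Gᶜ = 0 ∧
        ∃ f : G → Q.Lab, (∀ l, MeasurableSet (f ⁻¹' {l})) ∧
          Q.IsSol ((shiftGraph d).induce G) f := by
  let i : Fin d := ⟨0, by omega⟩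
  let j : Fin d := ⟨1, by omega⟩
  have hij : i ≠ j := by
    intro h
    have := congrArg Fin.val h
    simp [i, j] at this
  obtain ⟨K, c, hc, hcc⟩ := exists_colour d
  have hme : MeasurableEmbedding (Subtype.val : FreePart d → ((Fin d → ℤ) → Bool)) :=
    MeasurableEmbedding.subtype_coe (meas_free d)
  refine ⟨QQ K i j, exists_res hij c hc hcc, ?_, (cm d).comap Subtype.val, ?_, ?_⟩
  · rintro ⟨f, hf, hs⟩
    refine neg_core hme (fun g v => rfl) (isAct d) ?_ f hf hs
    rw [Subtype.range_coe]
    exact null_free d
  · refine ⟨?_⟩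
    rw [hme.comap_apply, Set.image_univ, Subtype.range_coe]
    exact (prob_compl_eq_zero_iff (meas_free d)).1 (null_free d)
  · rintro ⟨G, hG, hinv, hnull, f, hf, hs⟩
    refine neg_core (hme.comp (MeasurableEmbedding.subtype_coe hG)) (fun g v => rfl)
      (isActG hinv) ?_ f hf hs
    rw [hme.comap_apply] at hnull
    refine measure_mono_null ?_ (measure_union_null hnull (null_free d))
    intro x hx
    by_cases h : x ∈ FreePart d
    · left
      refine ⟨⟨x, h⟩, fun hc => hx ⟨⟨⟨x, h⟩, hc⟩, rfl⟩, rfl⟩
    · exact Or.inr h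

end Pool.Agent.X240.BB

end
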