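import Pool.Agent.X240.BB.Enc
import Pool.Agent.Y560.BE.Erg
import Pool.Agent.W927.BM.Main

/-!
The shift graph of `ℤ^d` on the free part of `2^{ℤ^d}`, and the absence of measurable solutions.
-/

set_option autoImplicit false

noncomputable section

namespace Pool.Agent.X240.BB

open SimpleGraph Pool.Agent.W927.BM MeasureTheory

/-- The shift: `(g · x)(h) = x(h + g)`. -/
def shf {d : ℕ} (g : Fin d → ℤ) (x : (Fin d → ℤ) → Bool) : (Fin d → ℤ) → Bool := fun h => x (h + g)

theorem shf_zero {d : ℕ} (x : (Fin d → ℤ) → Bool) : shf 0 x = x := by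
  funext h; simp [shf]

theorem shf_add {d : ℕ} (g h : Fin d → ℤ) (x : (Fin d → ℤ) → Bool) :
    shf (g + h) x = shf g (shf h x) := by
  funext k; simp [shf, add_assoc]

/-- The free part of `2^{ℤ^d}`. -/
def FreePart (d : ℕ) : Set ((Fin d → ℤ) → Bool) := {x | ∀ g : Fin d → ℤ, g ≠ 0 → shf g x ≠ x}

theorem shf_mem {d : ℕ} (g : Fin d → ℤ) {x : (Fin d → ℤ) → Bool} (hx : x ∈ FreePart d) :
    shf g x ∈ FreePart d := by
  intro k hk h
  apply hx k hk
  have h1 : shf (-g) (shf k (shf g x)) = shf (-g) (shf g x) := by rw [h]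
  rw [← shf_add, ← shf_add, ← shf_add] at h1
  rw [show -g + k + g = k by abel, neg_add_cancel, shf_zero] at h1
  exact h1

/-- The action of `ℤ^d` on the free part. -/
def act {d : ℕ} (g : Fin d → ℤ) (x : FreePart d) : FreePart d := ⟨shf g x.1, shf_mem g x.2⟩

/-- The shift graph: `x` and `y` are adjacent iff `y = ±e_i · x` for some `i`. -/
def shiftGraph (d : ℕ) : SimpleGraph (FreePart d) where
  Adj x y := ∃ i : Fin d, y = act (Pi.single i 1) x ∨ y = act (-Pi.single i 1) x
  symm := ⟨by
    rintro x y ⟨i, rfl | rfl⟩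
    · refine ⟨i, Or.inr (Subtype.ext ?_)⟩
      show x.1 = shf _ (shf _ x.1)
      rw [← shf_add, neg_add_cancel, shf_zero]
    · refine ⟨i, Or.inl (Subtype.ext ?_)⟩
      show x.1 = shf _ (shf _ x.1)
      rw [← shf_add, add_neg_cancel, shf_zero]⟩
  loopless := ⟨by
    rintro x ⟨i, h | h⟩
    · exact x.2 _ (un_ne_zero (i, true)) (congrArg Subtype.val h).symm
    · exact x.2 _ (un_ne_zero (i, false)) (congrArg Subtype.val h).symm⟩

theorem act_zero {d : ℕ} (x : FreePart d) : act 0 x = x := Subtype.ext (shf_zero _)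

theorem act_add {d : ℕ} (g h : Fin d → ℤ) (x : FreePart d) : act (g + h) x = act g (act h x) :=
  Subtype.ext (shf_add _ _ _)

theorem act_free {d : ℕ} (g : Fin d → ℤ) (x : FreePart d) (h : act g x = x) : g = 0 := by
  by_contra hg
  exact x.2 g hg (congrArg Subtype.val h)

theorem adj_iff' {d : ℕ} (x y : FreePart d) :
    (shiftGraph d).Adj x y ↔ ∃ a : Fin d × Bool, y = act (un a) x := by
  constructor
  · rintro ⟨i, h | h⟩
    · exact ⟨(i, true), h⟩
    · exact ⟨(i, false), h⟩
  · rintro ⟨⟨i, s⟩, h⟩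
    cases s
    · exact ⟨i, Or.inr h⟩
    · exact ⟨i, Or.inl h⟩

theorem isAct (d : ℕ) : IsAct (shiftGraph d) act := ⟨act_zero, act_add, act_free, adj_iff'⟩

/-- the action on an invariant set -/
def actG {d : ℕ} {G : Set (FreePart d)} (hG : ∀ g, ∀ x ∈ G, act g x ∈ G) (g : Fin d → ℤ) (x : G) :
    G := ⟨act g x.1, hG g x.1 x.2⟩

theorem isActG {d : ℕ} {G : Set (FreePart d)} (hG : ∀ g, ∀ x ∈ G, act g x ∈ G) :
    IsAct ((shiftGraph d).induce G) (actG hG) := by
  refine ⟨fun x => Subtype.ext (act_zero _), fun g h x => Subtype.ext (act_add _ _ _),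
    fun g x h => act_free g x.1 (congrArg Subtype.val h), fun x y => ?_⟩
  have h := adj_iff' x.1 y.1
  constructor
  · intro h1
    obtain ⟨a, ha⟩ := h.1 h1
    exact ⟨a, Subtype.ext ha⟩
  · rintro ⟨a, ha⟩
    exact h.2 ⟨a, congrArg Subtype.val ha⟩

/-! ### the coin flipping measure -/

/-- the fair coin -/
def coin : Measure Bool := (PMF.uniformOfFintype Bool).toMeasure

instance : IsProbabilityMeasure coin := by
  unfold coin
  infer_instance

theorem coin_lt (b : Bool) : coin {b} < 1 := by
  unfold coin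
  rw [PMF.toMeasure_apply_singleton _ _ (measurableSet_singleton b),
    PMF.uniformOfFintype_apply]
  simp

/-- the fair coin flipping measure on `2^{ℤ^d}` -/
def cm (d : ℕ) : Measure ((Fin d → ℤ) → Bool) := Measure.infinitePi fun _ : Fin d → ℤ => coin

instance (d : ℕ) : IsProbabilityMeasure (cm d) := by
  unfold cm
  infer_instance

theorem mp_shf {d : ℕ} (g : Fin d → ℤ) : MeasurePreserving (shf g) (cm d) (cm d) :=
  Pool.Agent.Y560.BE.mp_cm coin (Equiv.addRight g)

theorem erg_shf {d : ℕ} {g : Fin d → ℤ} (hg : g ≠ 0) : Ergodic (shf g) (cm d) := by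
  classical
  refine Pool.Agent.Y560.BE.erg_cm coin (Equiv.addRight g)
    (Pool.Agent.Y560.BE.move_off _ fun k n h => ?_)
  have h1 : ∀ m : ℕ, (Equiv.addRight g)^[m] k = k + m • g := by
    intro m
    induction m with
    | zero => simp
    | succ m ih =>
      rw [Function.iterate_succ_apply', ih]
      show k + m • g + g = _
      rw [succ_nsmul, add_assoc]
  rw [h1] at h
  have h2 : (n + 1) • g = 0 := by simpa using h
  exact hg ((smul_eq_zero.1 h2).resolve_left (Nat.succ_ne_zero n))

theorem free_null {d : ℕ} {g : Fin d → ℤ} (hg : g ≠ 0) : cm d {x | shf g x = x} = 0 := by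
  have hm : MeasurableSet {x : (Fin d → ℤ) → Bool | shf g x = x} :=
    measurableSet_eq_fun (mp_shf g).measurable measurable_id
  have key : ∀ b : Bool, cm d ({x | shf g x = x} ∩ {x | x 0 = b}) = 0 := by
    intro b
    have hb : MeasurableSet {x : (Fin d → ℤ) → Bool | x 0 = b} :=
      (measurable_pi_apply (X := fun _ : Fin d → ℤ => Bool) 0) (measurableSet_singleton b)
    have hb1 : cm d {x | x 0 = b} < 1 := by
      have h1 : cm d ((Function.eval (0 : Fin d → ℤ)) ⁻¹' {b}) = coin {b} :=
        (measurePreserving_eval_infinitePi (fun _ : Fin d → ℤ => coin) 0).measure_preimage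
          (measurableSet_singleton b).nullMeasurableSet
      exact h1.trans_lt (coin_lt b)
    have hinv : shf g ⁻¹' ({x | shf g x = x} ∩ {x | x 0 = b}) =
        {x | shf g x = x} ∩ {x | x 0 = b} := by
      ext x
      constructor
      · rintro ⟨h1, h2⟩
        have h3 : shf g x = x := by
          have h4 : shf (-g) (shf g (shf g x)) = shf (-g) (shf g x) := by
            rw [show shf g (shf g x) = shf g x from h1]
          rw [← shf_add, ← shf_add, ← shf_add, neg_add_cancel, zero_add, shf_zero] at h4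
          exact h4
        refine ⟨h3, ?_⟩
        have h5 : shf g x 0 = b := h2
        rwa [h3] at h5
      · rintro ⟨h1, h2⟩
        have h1' : shf g x = x := h1
        refine ⟨?_, ?_⟩
        · exact congrArg (shf g) h1'
        · show shf g x 0 = b
          rw [h1']
          exact h2
    rcases (erg_shf hg).toPreErgodic.ae_empty_or_univ (hm.inter hb) hinv with h | h
    · exact ae_eq_empty.1 h
    · exfalso
      have h1 := measure_congr h
      rw [measure_univ] at h1
      exact absurd (h1 ▸ measure_mono Set.inter_subset_right : (1 : ENNReal) ≤ _) (not_le.2 hb1)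
  have : ({x | shf g x = x} : Set ((Fin d → ℤ) → Bool)) ⊆
      ({x | shf g x = x} ∩ {x | x 0 = true}) ∪ ({x | shf g x = x} ∩ {x | x 0 = false}) := by
    intro x hx
    cases h : x 0
    · exact Or.inr ⟨hx, h⟩
    · exact Or.inl ⟨hx, h⟩
  exact measure_mono_null this (measure_union_null (key true) (key false))

theorem meas_free (d : ℕ) : MeasurableSet (FreePart d) := by
  have : FreePart d = ⋂ g : Fin d → ℤ, {x | g ≠ 0 → shf g x ≠ x} := by
    ext x
    simp only [FreePart, Set.mem_iInter, Set.mem_ofPred_eq]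
  rw [this]
  refine MeasurableSet.iInter fun g => ?_
  by_cases hg : g = 0
  · simp [hg]
  · have : {x : (Fin d → ℤ) → Bool | g ≠ 0 → shf g x ≠ x} = {x | shf g x = x}ᶜ := by
      ext x
      simp [hg]
    rw [this]
    exact (measurableSet_eq_fun (mp_shf g).measurable measurable_id).compl

theorem null_free (d : ℕ) : cm d (FreePart d)ᶜ = 0 := by
  have : (FreePart d)ᶜ ⊆ ⋃ g : {g : Fin d → ℤ // g ≠ 0}, {x | shf g.1 x = x} := by
    intro x hx
    simp only [FreePart, Set.mem_compl_iff, Set.mem_ofPred_eq, not_forall, not_not] at hx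
    obtain ⟨g, hg, h⟩ := hx
    exact Set.mem_iUnion.2 ⟨⟨g, hg⟩, h⟩
  exact measure_mono_null this (measure_iUnion_null fun g => free_null g.2)

theorem meas_act {d : ℕ} (g : Fin d → ℤ) : Measurable (act g) :=
  Measurable.subtype_mk ((mp_shf g).measurable.comp measurable_subtype_coe)

/-- discrete sigma algebra on labels -/
local instance instMSLab : MeasurableSpace Lab := ⊤

local instance : DiscreteMeasurableSpace Lab := ⟨fun _ => trivial⟩

theorem neg_core {d K : ℕ} {i j : Fin d} {V : Type} [MeasurableSpace V] {H : SimpleGraph V}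
    {ι : V → (Fin d → ℤ) → Bool} (hι : MeasurableEmbedding ι) {α : (Fin d → ℤ) → V → V}
    (hα : ∀ g v, ι (α g v) = shf g (ι v)) (A : IsAct H α) (hfull : cm d (Set.range ι)ᶜ = 0)
    (f : V → LL d K) (hf : ∀ l, MeasurableSet (f ⁻¹' {l})) (hsol : (QQ K i j).IsSol H f) :
    False := by
  have hfm : Measurable f := measurable_to_countable' hf
  have hαm : ∀ g, Measurable (α g) := by
    intro g
    refine (hι.measurable_comp_iff).1 ?_
    have : (ι ∘ α g) = (shf g ∘ ι) := by
      funext v
      exact hα g v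
    rw [this]
    exact (mp_shf g).measurable.comp hι.measurable
  set E : (Fin d × Bool) × (Fin d × Bool) → Set ((Fin d → ℤ) → Bool) :=
    fun p => ι '' {v | Dir f α i j p.1 p.2 v} with hE
  have hDm : ∀ a b, MeasurableSet {v | Dir f α i j a b v} := by
    intro a b
    unfold Dir
    have h1 : ∀ (k : Fin d) (c : Fin d × Bool),
        MeasurableSet {v | (f v).2.1 (k, true) = (f (α (un c) v)).1} := by
      intro k c
      refine measurableSet_eq_fun ?_ ?_
      · exact (measurable_of_countable (fun l : LL d K => l.2.1 (k, true))).comp hfm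
      · exact (measurable_of_countable (fun l : LL d K => l.1)).comp (hfm.comp (hαm _))
    exact (h1 i a).inter (h1 j b)
  have hEm : ∀ p, MeasurableSet (E p) := fun p => hι.measurableSet_image.2 (hDm _ _)
  have hcov : Set.range ι ⊆ ⋃ p, E p := by
    rintro _ ⟨v, rfl⟩
    obtain ⟨⟨a, b, h⟩, -⟩ := dir_of_sol A f hsol v
    exact Set.mem_iUnion.2 ⟨(a, b), v, h, rfl⟩
  have hpos : ∃ p, cm d (E p) ≠ 0 := by
    by_contra hc
    push Not at hc
    have h1 : cm d (⋃ p, E p) = 0 := measure_iUnion_null hc
    have h2 : cm d Set.univ ≤ cm d (⋃ p, E p) + cm d (Set.range ι)ᶜ := by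
      refine (measure_mono ?_).trans (measure_union_le _ _)
      intro x _
      by_cases hx : x ∈ Set.range ι
      · exact Or.inl (hcov hx)
      · exact Or.inr hx
    rw [h1, hfull, measure_univ] at h2
    simp at h2
  obtain ⟨⟨a, b⟩, hp⟩ := hpos
  have hinv : shf (un a) ⁻¹' (E (a, b)) = E (a, b) := by
    ext y
    constructor
    · rintro ⟨v, hv, hvy⟩
      refine ⟨α (un (op a)) v, ((dir_of_sol A f hsol v).2 a b hv).1 (op a), ?_⟩
      rw [hα, hvy, un_op, ← shf_add, neg_add_cancel, shf_zero]
    · rintro ⟨v, hv, rfl⟩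
      exact ⟨α (un a) v, ((dir_of_sol A f hsol v).2 a b hv).1 a, hα _ _⟩
  have hfullE : ∀ᵐ y ∂(cm d), y ∈ E (a, b) := by
    rcases (erg_shf (un_ne_zero a)).toPreErgodic.ae_empty_or_univ (hEm (a, b)) hinv with h | h
    · exact absurd (ae_eq_empty.1 h) hp
    · filter_upwards [h] with y hy
      exact (iff_of_eq hy).2 trivial
  obtain ⟨f', hf', hff⟩ := hι.exists_measurable_extend hfm (fun _ => ⟨f
    (Classical.choice (by
      by_contra hc
      rw [not_nonempty_iff] at hc
      rw [Set.range_eq_empty, Set.compl_empty, measure_univ] at hfull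
      exact one_ne_zero hfull))⟩)
  set T : ℤ → ℤ → ((Fin d → ℤ) → Bool) → ((Fin d → ℤ) → Bool) :=
    fun t x => shf (t • un a + x • un b) with hT
  refine neg ((Fin d → ℤ) → Bool) (cm d) T (fun y => ?_) (fun s t x z y => ?_)
    (fun t x => mp_shf _) ?_ ⟨fun y => (f' y).2.2, fun l => ?_, ?_⟩
  · simp only [hT, zero_smul, add_zero, shf_zero]
  · simp only [hT]
    rw [← shf_add]
    congr 1
    rw [add_smul, add_smul]
    abel
  · have : T 0 1 = shf (un b) := by
      simp only [hT, zero_smul, one_smul, zero_add]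
    rw [this]
    exact erg_shf (un_ne_zero b)
  · exact ((measurable_of_countable (fun l : LL d K => l.2.2)).comp hf') (measurableSet_singleton l)
  · have h1 : ∀ᵐ y ∂(cm d), ∀ t x, T t x y ∈ E (a, b) := by
      rw [ae_all_iff]; intro t
      rw [ae_all_iff]; intro x
      exact (mp_shf (t • un a + x • un b)).quasiMeasurePreserving.ae
        (p := fun y => y ∈ E (a, b)) hfullE
    filter_upwards [h1] with y hy
    obtain ⟨v, -, rfl⟩ : y ∈ E (a, b) := by
      have := hy 0 0
      simpa only [hT, zero_smul, add_zero, shf_zero] using this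
    have hff' : ∀ w, f' (ι w) = f w := fun w => congrFun hff w
    intro t x
    obtain ⟨w, hw, hwy⟩ := hy t x
    have hwv : w = α (t • un a + x • un b) v := hι.injective (by rw [hwy, hα])
    have h2 := ((dir_of_sol A f hsol w).2 a b hw).2
    refine Rule_congr (t := 0) (x := 0) (t' := t) (x' := x) ?_ h2
    intro s z _ _
    simp only [hT, zero_add]
    rw [← hα, hff', hwv, ← A.add]
    congr 3
    rw [add_smul, add_smul]
    abel_nf

end Pool.Agent.X240.BB

end
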